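import Pool.Agent.Helper64.RFn.GoalsF

/-!
Project RFn, part F, packet DEVn: existence of the almost parallel frame.
-/

open MeasureTheory Set

open scoped RealInnerProductSpace

namespace Pool.Agent.Helper11.RFn

open Pool.Agent.Helper64.RFn

/-- The derivative of a (-1)-homogeneous map is (-2)-homogeneous. -/
theorem fderiv_hom_gen {X F : Type} [NormedAddCommGroup X] [NormedSpace ℝ X]
    [NormedAddCommGroup F] [NormedSpace ℝ F] (B : X → F)
    (hd : ∀ y, y ≠ 0 → DifferentiableAt ℝ B y)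
    (hB : ∀ r : ℝ, 0 < r → ∀ x, x ≠ 0 → B (r • x) = r⁻¹ • B x)
    (r : ℝ) (hr : 0 < r) (x : X) (hx : x ≠ 0) :
    fderiv ℝ B (r • x) = (r⁻¹ * r⁻¹) • fderiv ℝ B x := by
  have hrx : r • x ≠ 0 := smul_ne_zero hr.ne' hx
  have h1 : HasFDerivAt (fun y : X => B (r • y))
      ((fderiv ℝ B (r • x)).comp (r • ContinuousLinearMap.id ℝ X)) x := by
    have h2 : HasFDerivAt (fun y : X => r • y) (r • ContinuousLinearMap.id ℝ X) x :=
      (hasFDerivAt_id x).const_smul r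
    exact HasFDerivAt.comp (g := B) (f := fun y : X => r • y) x (hd _ hrx).hasFDerivAt h2
  have h3 : HasFDerivAt (fun y : X => r⁻¹ • B y) (r⁻¹ • fderiv ℝ B x) x :=
    HasFDerivAt.const_smul (f := B) (hd x hx).hasFDerivAt r⁻¹
  have h4 : (fun y : X => B (r • y)) =ᶠ[nhds x] fun y : X => r⁻¹ • B y := by
    filter_upwards [isOpen_compl_singleton.mem_nhds hx] with y hy
    exact hB r hr y hy
  have h5 := (h1.congr_of_eventuallyEq h4.symm).unique h3
  have h6 : (fderiv ℝ B (r • x)).comp (r • ContinuousLinearMap.id ℝ X)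
      = r • fderiv ℝ B (r • x) := by
    ext v
    simp
  rw [h6] at h5
  calc fderiv ℝ B (r • x) = r⁻¹ • (r • fderiv ℝ B (r • x)) := by
        rw [smul_smul, inv_mul_cancel₀ hr.ne', one_smul]
    _ = (r⁻¹ * r⁻¹) • fderiv ℝ B x := by rw [h5, smul_smul]

theorem fderiv_shift_gen {X F : Type} [NormedAddCommGroup X] [NormedSpace ℝ X]
    [NormedAddCommGroup F] [NormedSpace ℝ F] (B : X → F) (e ξ : X)
    (hd : DifferentiableAt ℝ B (e + ξ)) :
    fderiv ℝ (fun ζ => B (e + ζ)) ξ = fderiv ℝ B (e + ξ) := by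
  have h2 : HasFDerivAt (fun ζ : X => e + ζ) (ContinuousLinearMap.id ℝ X) ξ :=
    (hasFDerivAt_id _).const_add e
  have h4 := HasFDerivAt.comp (g := B) (f := fun ζ : X => e + ζ) ξ hd.hasFDerivAt h2
  rw [ContinuousLinearMap.comp_id] at h4
  exact h4.fderiv

theorem fderiv_shift_gen' {X F : Type} [NormedAddCommGroup X] [NormedSpace ℝ X]
    [NormedAddCommGroup F] [NormedSpace ℝ F] (B : X → F) (e x : X)
    (hd : DifferentiableAt ℝ B (x - e)) :
    fderiv ℝ (fun ζ => B (ζ - e)) x = fderiv ℝ B (x - e) := by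
  have h2 : HasFDerivAt (fun ζ : X => ζ - e) (ContinuousLinearMap.id ℝ X) x :=
    (hasFDerivAt_id _).sub_const e
  have h4 := HasFDerivAt.comp (g := B) (f := fun ζ : X => ζ - e) x hd.hasFDerivAt h2
  rw [ContinuousLinearMap.comp_id] at h4
  exact h4.fderiv

theorem fderiv_hom {m : ℕ} {T : V m → V m →L[ℝ] V m} {B : V m → V m →L[ℝ] (V m →L[ℝ] V m)}
    (h : Cone T B) (r : ℝ) (hr : 0 < r) (x : V m) (hx : x ≠ 0) :
    fderiv ℝ B (r • x) = (r⁻¹ * r⁻¹) • fderiv ℝ B x :=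
  fderiv_hom_gen B (fun _ hy =>
    (h.smB.contDiffAt (isOpen_compl_singleton.mem_nhds hy)).differentiableAt (by simp))
    h.homB r hr x hx

theorem Fc_hom {m : ℕ} {T : V m → V m →L[ℝ] V m} {B : V m → V m →L[ℝ] (V m →L[ℝ] V m)}
    (h : Cone T B) (r : ℝ) (hr : 0 < r) (x : V m) (hx : x ≠ 0) (u v : V m) :
    Fc B (r • x) u v = (r⁻¹ * r⁻¹) • Fc B x u v := by
  unfold Fc
  rw [fderiv_hom h r hr x hx, h.homB r hr x hx]
  ext w
  simp only [sub_apply, add_apply,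
    smul_apply, ContinuousLinearMap.comp_apply, map_smul, smul_sub, smul_add,
    smul_smul]

theorem Fc_bound {m : ℕ} {T : V m → V m →L[ℝ] V m} {B : V m → V m →L[ℝ] (V m →L[ℝ] V m)}
    (h : Cone T B) {η : ℝ} (hc : ∀ x, ‖x‖ = 1 → ∀ u v, ‖Fc B x u v‖ ≤ η * ‖u‖ * ‖v‖)
    (x : V m) (hx : x ≠ 0) (u v : V m) :
    ‖Fc B x u v‖ ≤ (‖x‖ ^ 2)⁻¹ * (η * ‖u‖ * ‖v‖) := by
  have hn : 0 < ‖x‖ := norm_pos_iff.mpr hx
  have hX : ‖‖x‖⁻¹ • x‖ = 1 := by
    rw [norm_smul, norm_inv, norm_norm, inv_mul_cancel₀ hn.ne']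
  have hX0 : ‖x‖⁻¹ • x ≠ 0 := by
    intro h0
    rw [h0, norm_zero] at hX
    exact zero_ne_one hX
  have h1 : x = ‖x‖ • (‖x‖⁻¹ • x) := by
    rw [smul_smul, mul_inv_cancel₀ hn.ne', one_smul]
  have h2 := Fc_hom h ‖x‖ hn _ hX0 u v
  rw [← h1] at h2
  rw [h2, norm_smul, Real.norm_eq_abs, abs_of_nonneg (by positivity)]
  have h3 := hc _ hX u v
  have h4 : ‖x‖⁻¹ * ‖x‖⁻¹ = (‖x‖ ^ 2)⁻¹ := by
    rw [sq, mul_inv]
  rw [h4]
  exact mul_le_mul_of_nonneg_left h3 (by positivity)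

/-- The adjoint as a continuous real-linear map. -/
noncomputable def adjL (m : ℕ) : (V m →L[ℝ] V m) →L[ℝ] (V m →L[ℝ] V m) :=
  LinearMap.toContinuousLinearMap
    { toFun := fun A => ContinuousLinearMap.adjoint A
      map_add' := fun A A' => map_add _ A A'
      map_smul' := fun c A => by
        rw [map_smulₛₗ]
        rfl }

theorem adjL_apply (m : ℕ) (A : V m →L[ℝ] V m) : adjL m A = ContinuousLinearMap.adjoint A := rfl

theorem devn (lsd : LSDn) (rad : RADn) (ort : ORTn) (seg : SEG) (cut : CUT) : DEVn := by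
  intro m c hc0 hc1 e he T B η hη hC hcurv
  have h1c : 0 < 1 - c := by linarith
  have hρ : 0 < Real.sqrt ((1 - c) / 64) := Real.sqrt_pos.mpr (by positivity)
  obtain ⟨B', sB', eB', tB'⟩ := cut (V m) (V m →L[ℝ] (V m →L[ℝ] V m)) B
    (Real.sqrt ((1 - c) / 64)) hρ hC.smB
  have skB' : ∀ x u a b, ⟪B' x u a, b⟫ = - ⟪a, B' x u b⟫ := by
    intro x u a b
    obtain ⟨t, ht, ht0⟩ := tB' x
    by_cases hx : x = 0
    · rw [ht, ht0 hx]
      simp
    · rw [ht]
      simp only [smul_apply, inner_smul_left, inner_smul_right, conj_trivial]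
      rw [hC.skew x hx u a b]
      ring
  obtain ⟨Bs, hBs⟩ : ∃ Bs : V m → V m →L[ℝ] (V m →L[ℝ] V m), Bs = fun ξ => B' (e + ξ) := ⟨_, rfl⟩
  have hBsa : ∀ ξ, Bs ξ = B' (e + ξ) := fun ξ => by rw [hBs]
  have sBs : ContDiff ℝ (⊤ : ℕ∞) Bs := by
    rw [hBs]
    exact sB'.comp (contDiff_const.add contDiff_id)
  have skBs : ∀ x u a b, ⟪Bs x u a, b⟫ = - ⟪a, Bs x u b⟫ := by
    intro x u a b
    rw [hBsa]
    exact skB' _ _ _ _
  obtain ⟨U, sU, U0, rU⟩ := lsd (V m) (V m) Bs sBs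
  have hort := ort m Bs U sBs sU U0 rU skBs
  have sPi : ContDiff ℝ (⊤ : ℕ∞) (fun ξ => ContinuousLinearMap.adjoint (U ξ)) := by
    have h1 : ContDiff ℝ (⊤ : ℕ∞) (fun ξ => adjL m (U ξ)) := (adjL m).contDiff.comp sU
    exact h1
  have nU : ∀ ξ, ‖U ξ‖ ≤ 1 := by
    intro ξ
    refine ContinuousLinearMap.opNorm_le_bound _ zero_le_one (fun q => ?_)
    have h1 := (hort ξ).1 q q
    rw [real_inner_self_eq_norm_sq, real_inner_self_eq_norm_sq] at h1
    have h2 : ‖U ξ q‖ = ‖q‖ := by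
      rwa [pow_left_inj₀ (norm_nonneg _) (norm_nonneg _) two_ne_zero] at h1
    rw [h2, one_mul]
  have nPi : ∀ ξ, ‖ContinuousLinearMap.adjoint (U ξ)‖ ≤ 1 := by
    intro ξ
    rw [LinearIsometryEquiv.norm_map]
    exact nU ξ
  refine ⟨fun x => U (x - e), ?_, ?_, ?_⟩
  · exact sU.comp (contDiff_id.sub contDiff_const)
  · intro x a b
    exact (hort (x - e)).1 a b
  · intro x hx v
    have hfd : fderiv ℝ (fun y => U (y - e)) x = fderiv ℝ U (x - e) :=
      fderiv_shift_gen' U e x (sU.differentiable (by simp) _)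
    have hnear : ∀ s ∈ Icc (0:ℝ) 1, (1 - c) / 32 ≤ ‖e + s • (x - e)‖ ^ 2 :=
      fun s hs => seg m e c he hc0.le hc1 x hx s hs
    have hlow : ∀ s ∈ Icc (0:ℝ) 1, Real.sqrt ((1 - c) / 64) ≤ ‖e + s • (x - e)‖ := by
      intro s hs
      rw [Real.sqrt_le_left (norm_nonneg _)]
      have := hnear s hs
      linarith
    have hF : ∀ s ∈ Icc (0:ℝ) 1, ∀ a b, ‖Fc Bs (s • (x - e)) a b‖ ≤
        (32 / (1 - c) * η) * ‖a‖ * ‖b‖ := by
      intro s hs a b
      set y : V m := e + s • (x - e) with hy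
      have hy2 : (1 - c) / 32 ≤ ‖y‖ ^ 2 := hnear s hs
      have hypos : 0 < ‖y‖ ^ 2 := lt_of_lt_of_le (by positivity) hy2
      have hy0 : y ≠ 0 := by
        intro h0
        rw [h0] at hypos
        simp at hypos
      have hev : B' =ᶠ[nhds y] B := eB' y (hlow s hs)
      have h1 : fderiv ℝ Bs (s • (x - e)) = fderiv ℝ B y := by
        have h2 := fderiv_shift_gen B' e (s • (x - e)) (sB'.differentiable (by simp) _)
        rw [hBs, h2]
        exact hev.fderiv_eq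
      have h5 : Bs (s • (x - e)) = B y := by
        rw [hBsa]
        exact hev.eq_of_nhds
      have h6 : Fc Bs (s • (x - e)) a b = Fc B y a b := by
        unfold Fc
        rw [h1, h5]
      rw [h6]
      refine (Fc_bound hC hcurv y hy0 a b).trans ?_
      have h7 : (‖y‖ ^ 2)⁻¹ ≤ 32 / (1 - c) := by
        rw [inv_le_comm₀ hypos (by positivity), inv_div]
        exact hy2
      calc (‖y‖ ^ 2)⁻¹ * (η * ‖a‖ * ‖b‖) ≤ 32 / (1 - c) * (η * ‖a‖ * ‖b‖) :=
            mul_le_mul_of_nonneg_right h7 (by positivity)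
        _ = (32 / (1 - c) * η) * ‖a‖ * ‖b‖ := by ring
    have hR := rad (V m) (V m) Bs U (fun ξ => ContinuousLinearMap.adjoint (U ξ)) 1
      (32 / (1 - c) * η) (x - e) sBs sU sPi (fun ζ => (hort ζ).2.1) (fun ζ => (hort ζ).2.2) rU
      zero_le_one (by positivity) (fun s hs => ⟨nU _, nPi _, hF s hs⟩) v
    have hxe : Bs (x - e) = B x := by
      have h1 := hlow 1 (by simp)
      rw [one_smul, add_sub_cancel] at h1
      rw [hBsa, add_sub_cancel]
      exact (eB' x h1).eq_of_nhds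
    have hn3 : ‖x - e‖ ≤ 3 := by
      have h1 := norm_sub_le x e
      have h2 := hx.2.1
      linarith
    rw [hxe] at hR
    simp only
    rw [hfd]
    refine hR.trans ?_
    calc 1 ^ 3 * (32 / (1 - c) * η) * ‖x - e‖ * ‖v‖
        ≤ 1 ^ 3 * (32 / (1 - c) * η) * 3 * ‖v‖ := by
          refine mul_le_mul_of_nonneg_right ?_ (norm_nonneg v)
          exact mul_le_mul_of_nonneg_left hn3 (by positivity)
      _ = 96 / (1 - c) * η * ‖v‖ := by ring

end Pool.Agent.Helper11.RFn
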