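import Pool.Agent.Helper47.RFn.Alg

/-!
# Project RFn (MP_c98eff_gt, n ≥ 4), packet PK: `2 Q(R, A ∧ id) = Ric ∧ A + R(A) ∧ id`
-/

namespace Pool.Agent.Helper47.RFn

open Finset

namespace PK11

/-- Contraction of the last index of `R` with `A`. -/
def U {n : ℕ} (R : T4 n) (A : M2 n) (a b c d : Fin n) : ℝ := ∑ f, R a b c f * A d f

theorem U_anti {n : ℕ} {R : T4 n} (hR : IsCurv R) (A : M2 n) (a b c d : Fin n) :
    U R A b a c d = - U R A a b c d := by
  unfold U
  rw [← Finset.sum_neg_distrib]
  refine Finset.sum_congr rfl fun f _ => ?_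
  rw [hR.a12 b a c f]
  ring

theorem BB_wdg {n : ℕ} {R : T4 n} {A : M2 n} (hR : IsCurv R) (hA : A.IsSymm) (a b c d : Fin n) :
    BB R (wdg A 1) a b c d =
      (A c d * Ric R a b - U R A a d b c + (1 : M2 n) c d * act R A a b - U R A b c a d) / 2 := by
  have hs : ∀ i j, A i j = A j i := fun i j => hA.apply j i
  have h1 : ∑ e, ∑ f, R a e b f * (A c d * (1 : M2 n) e f) = A c d * Ric R a b := by
    simp only [Matrix.one_apply, mul_ite, mul_one, mul_zero, Finset.sum_ite_eq, Finset.mem_univ,
      if_true, Ric, Finset.mul_sum]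
    exact Finset.sum_congr rfl fun e _ => mul_comm _ _
  have h2 : ∑ e, ∑ f, R a e b f * (A c f * (1 : M2 n) e d) = U R A a d b c := by
    rw [Finset.sum_comm]
    simp only [Matrix.one_apply, mul_ite, mul_one, mul_zero, Finset.sum_ite_eq', Finset.mem_univ,
      if_true, U]
  have h3 : ∑ e, ∑ f, R a e b f * ((1 : M2 n) c d * A e f) = (1 : M2 n) c d * act R A a b := by
    simp only [act, Finset.mul_sum]
    exact Finset.sum_congr rfl fun e _ => Finset.sum_congr rfl fun f _ => by ring
  have h4 : ∑ e, ∑ f, R a e b f * ((1 : M2 n) c f * A e d) = U R A b c a d := by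
    simp only [Matrix.one_apply, ite_mul, one_mul, zero_mul, mul_ite, mul_zero, Finset.sum_ite_eq,
      Finset.mem_univ, if_true, U]
    exact Finset.sum_congr rfl fun e _ => by rw [hR.pair a e b c, hs e d]
  have key : ∀ e f, R a e b f * wdg A 1 c e d f =
      (R a e b f * (A c d * (1 : M2 n) e f) - R a e b f * (A c f * (1 : M2 n) e d)
        + R a e b f * ((1 : M2 n) c d * A e f) - R a e b f * ((1 : M2 n) c f * A e d)) / 2 := by
    intro e f
    unfold wdg
    ring
  unfold BB
  simp_rw [key]
  simp only [← Finset.sum_div, Finset.sum_sub_distrib, Finset.sum_add_distrib]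
  rw [h1, h2, h3, h4]

theorem BB_swap {n : ℕ} (R S : T4 n) (a b c d : Fin n) : BB S R a b c d = BB R S c d a b := by
  unfold BB
  exact Finset.sum_congr rfl fun e _ => Finset.sum_congr rfl fun f _ => mul_comm _ _

end PK11

open PK11

theorem PK11.main : Goal_PK := by
  intro n R A hR hA
  have hs : ∀ i j, A i j = A j i := fun i j => hA.apply j i
  have ho : ∀ i j : Fin n, (1 : M2 n) i j = (1 : M2 n) j i := fun i j => by
    simp [Matrix.one_apply, eq_comm]
  have hric : ∀ i j, Ric R i j = Ric R j i := fun i j => by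
    unfold Ric
    exact Finset.sum_congr rfl fun e _ => hR.pair _ _ _ _
  have hact : ∀ i j, act R A i j = act R A j i := fun i j => by
    unfold act
    rw [Finset.sum_comm]
    refine Finset.sum_congr rfl fun e _ => Finset.sum_congr rfl fun f _ => ?_
    rw [hR.pair i f j e, hs f e]
  funext a b c d
  simp only [Pi.smul_apply, Pi.add_apply, smul_eq_mul]
  unfold QQ
  simp only [BB_swap R (wdg A 1), BB_wdg hR hA]
  unfold wdg
  rw [U_anti hR A a d b c, U_anti hR A b d a c, U_anti hR A b c a d, U_anti hR A a c b d,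
    U_anti hR A b c d a, U_anti hR A b d c a, U_anti hR A a d c b, U_anti hR A a c d b,
    hs d c, ho d c, hric d c, hact d c]
  ring

theorem goal_PK (_hCL : Goal_CL) : Goal_PK := PK11.main

end Pool.Agent.Helper47.RFn
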